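import Mathlib

set_option autoImplicit false

namespace Pool.Agent.Results.MP_209e83_co.TypeB

open List

/-- A signed permutation `w` of `[n]` is given by a permutation `σ` of `Fin n` and signs `s`:
`w (i + 1) = s i * (σ i + 1)` for `i < n`, and `w 0 = 0`. -/
def win {n : ℕ} (σ : Equiv.Perm (Fin n)) (s : Fin n → ℤˣ) : ℕ → ℤ
  | 0 => 0
  | i + 1 => if h : i < n then (s ⟨i, h⟩ : ℤ) * (((σ ⟨i, h⟩).val : ℤ) + 1) else 0

/-- Number of type B descents: indices `i` in `0, ..., n - 1` with `w i > w (i + 1)`. -/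
def desB {n : ℕ} (σ : Equiv.Perm (Fin n)) (s : Fin n → ℤˣ) : ℕ :=
  ((Finset.range n).filter (fun i => win σ s (i + 1) < win σ s i)).card

/-- Type B Eulerian numbers. -/
def B (n k : ℕ) : ℕ :=
  ((Finset.univ : Finset (Equiv.Perm (Fin n) × (Fin n → ℤˣ))).filter
    (fun p => desB p.1 p.2 = k)).card

/-- The type B Eulerian transformation. -/
noncomputable def z (x : ℕ → ℝ) (n : ℕ) : ℝ := ∑ k ∈ Finset.range (n + 1), (B n k : ℝ) * x k

def D : List ℤ → ℕ
  | a :: b :: l => (if b < a then 1 else 0) + D (b :: l)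
  | _ => 0

lemma D_cons (a b : ℤ) (l : List ℤ) : D (a :: b :: l) = (if b < a then 1 else 0) + D (b :: l) := rfl
lemma D_single (a : ℤ) : D [a] = 0 := rfl

lemma ins_max (M : ℤ) (l : List ℤ) : ∀ (a : ℤ) (x : ℕ → ℝ), a < M → (∀ b ∈ l, b < M) →
    ((permutations'Aux M l).map (fun s => x (D (a :: s)))).sum =
      ((D (a :: l) : ℝ) + 1) * x (D (a :: l)) + ((l.length : ℝ) - D (a :: l)) * x (D (a :: l) + 1) := by
  induction l with
  | nil =>
    intro a x ha _
    have : ¬ M < a := by omega
    simp [permutations'Aux, D_cons, D_single, this]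
  | cons b l ih =>
    intro a x ha hl
    have hb : b < M := hl b (by simp)
    have h1 : ¬ M < a := by omega
    have := ih b (fun k => x ((if b < a then 1 else 0) + k)) hb (fun c hc => hl c (by simp [hc]))
    simp only [permutations'Aux, map_cons, sum_cons, map_map, Function.comp_def, D_cons, h1, hb,
      if_true, if_false, length_cons]
    rw [this]
    by_cases h : b < a
    · simp only [h, if_true]
      push_cast
      have e1 : 0 + (1 + D (b :: l)) = 1 + D (b :: l) := by omega
      have e2 : 1 + (D (b :: l) + 1) = 1 + D (b :: l) + 1 := by omega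
      rw [e1, e2]; ring
    · simp only [h, if_false]
      push_cast
      have e1 : 0 + (1 + D (b :: l)) = D (b :: l) + 1 := by omega
      have e2 : 0 + (D (b :: l) + 1) = D (b :: l) + 1 := by omega
      have e3 : 0 + D (b :: l) = D (b :: l) := by omega
      rw [e1, e2, e3]; ring

lemma ins_min (M : ℤ) (l : List ℤ) : ∀ (a : ℤ) (x : ℕ → ℝ), M < a → (∀ b ∈ l, M < b) →
    ((permutations'Aux M l).map (fun s => x (D (a :: s)))).sum =
      (D (a :: l) : ℝ) * x (D (a :: l)) + ((l.length : ℝ) + 1 - D (a :: l)) * x (D (a :: l) + 1) := by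
  induction l with
  | nil =>
    intro a x ha _
    simp [permutations'Aux, D_cons, D_single, ha]
  | cons b l ih =>
    intro a x ha hl
    have hb : M < b := hl b (by simp)
    have h1 : ¬ b < M := by omega
    have := ih b (fun k => x ((if b < a then 1 else 0) + k)) hb (fun c hc => hl c (by simp [hc]))
    simp only [permutations'Aux, map_cons, sum_cons, map_map, Function.comp_def, D_cons, h1, ha,
      if_true, if_false, length_cons]
    rw [this]
    by_cases h : b < a
    · simp only [h, if_true]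
      push_cast
      have e1 : 1 + (0 + D (b :: l)) = 1 + D (b :: l) := by omega
      have e2 : 1 + (D (b :: l) + 1) = 1 + D (b :: l) + 1 := by omega
      rw [e1, e2]; ring
    · simp only [h, if_false]
      push_cast
      have e1 : 1 + (0 + D (b :: l)) = D (b :: l) + 1 := by omega
      have e2 : 0 + (D (b :: l) + 1) = D (b :: l) + 1 := by omega
      have e3 : 0 + D (b :: l) = D (b :: l) := by omega
      rw [e1, e2, e3]; ring

lemma sum_flat (L : List (List ℤ)) (f : List ℤ → List (List ℤ)) (g : List ℤ → ℝ) :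
    ((L.flatMap f).map g).sum = (L.map (fun s => ((f s).map g).sum)).sum := by
  induction L with
  | nil => simp
  | cons a L ih => simp only [flatMap_cons, map_append, sum_append, map_cons, sum_cons, ih]

def gv {n : ℕ} (e : Fin n → ℤˣ) (j : Fin n) : ℤ := (e j : ℤ) * ((j.val : ℤ) + 1)

lemma gv_cases {n : ℕ} (e : Fin n → ℤˣ) (j : Fin n) :
    gv e j = (j.val : ℤ) + 1 ∨ gv e j = -((j.val : ℤ) + 1) := by
  unfold gv
  rcases Int.units_eq_one_or (e j) with h | h <;> simp [h]

lemma gv_inj {n : ℕ} (e : Fin n → ℤˣ) : Function.Injective (gv e) := by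
  intro i j h
  apply Fin.ext
  rcases gv_cases e i with h1 | h1 <;> rcases gv_cases e j with h2 | h2 <;> omega

lemma perm_sum {n : ℕ} (g : Fin n → ℤ) (hg : Function.Injective g) (h : List ℤ → ℝ) :
    ((permutations' (List.ofFn g)).map h).sum
      = ∑ σ : Equiv.Perm (Fin n), h (List.ofFn (g ∘ σ)) := by
  classical
  have hnd : (permutations' (List.ofFn g)).Nodup :=
    (permutations_perm_permutations' _).nodup_iff.1 (nodup_permutations _ (List.nodup_ofFn.2 hg))
  have hlen : (permutations' (List.ofFn g)).length = n.factorial := by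
    rw [← (permutations_perm_permutations' _).length_eq, length_permutations]; simp
  have hinj : Function.Injective (fun σ : Equiv.Perm (Fin n) => List.ofFn (g ∘ σ)) := by
    intro σ τ h
    have := List.ofFn_injective h
    exact Equiv.ext (fun i => hg (congrFun this i))
  have himg : (Finset.univ : Finset (Equiv.Perm (Fin n))).image
      (fun σ : Equiv.Perm (Fin n) => List.ofFn (g ∘ σ))
      = (permutations' (List.ofFn g)).toFinset := by
    apply Finset.eq_of_subset_of_card_le
    · intro s hs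
      obtain ⟨σ, _, rfl⟩ := Finset.mem_image.1 hs
      exact List.mem_toFinset.2 (mem_permutations'.2 (σ.ofFn_comp_perm g))
    · rw [Finset.card_image_of_injective _ hinj, List.toFinset_card_of_nodup hnd, hlen]
      simp [Fintype.card_perm]
  rw [← List.sum_toFinset _ hnd, ← himg, Finset.sum_image (fun a _ b _ h => hinj h)]

noncomputable def Z (n : ℕ) (x : ℕ → ℝ) : ℝ :=
  ∑ e : Fin n → ℤˣ, ((permutations' (List.ofFn (gv e))).map (fun s => x (D (0 :: s)))).sum

lemma Z_succ (n : ℕ) (x : ℕ → ℝ) :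
    Z (n + 1) x = Z n (fun d => (2 * (d : ℝ) + 1) * x d + (2 * (n : ℝ) + 1 - 2 * d) * x (d + 1)) := by
  unfold Z
  rw [← (Fin.snocEquiv (fun _ : Fin (n + 1) => ℤˣ)).sum_comp, Fintype.sum_prod_type_right]
  apply Finset.sum_congr rfl
  intro e _
  have hp : ∀ u : ℤˣ, List.ofFn (gv (Fin.snocEquiv (fun _ : Fin (n + 1) => ℤˣ) (u, e)))
      ~ ((u : ℤ) * ((n : ℤ) + 1)) :: List.ofFn (gv e) := by
    intro u
    rw [List.ofFn_succ', List.concat_eq_append]
    refine List.perm_append_comm.trans ?_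
    simp [gv, Fin.snocEquiv]
    rfl
  have hs : ∀ u : ℤˣ, ((permutations' (List.ofFn (gv (Fin.snocEquiv (fun _ : Fin (n + 1) => ℤˣ)
      (u, e))))).map (fun s => x (D (0 :: s)))).sum =
      ((permutations' (List.ofFn (gv e))).map (fun l =>
        ((permutations'Aux ((u : ℤ) * ((n : ℤ) + 1)) l).map (fun s => x (D (0 :: s)))).sum)).sum := by
    intro u
    rw [(((hp u).permutations').map _).sum_eq]
    simp only [permutations']
    rw [sum_flat]
  simp only [hs]
  rw [UnitsInt.univ, Finset.sum_pair (by decide), ← List.sum_map_add]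
  congr 1
  apply List.map_congr_left
  intro l hl
  have hq := mem_permutations'.1 hl
  have hb : ∀ b ∈ l, -((n : ℤ) + 1) < b ∧ b < (n : ℤ) + 1 := by
    intro b hb
    obtain ⟨j, rfl⟩ := List.mem_ofFn.1 (hq.mem_iff.1 hb)
    have := j.2
    rcases gv_cases e j with h | h <;> omega
  have hlen : l.length = n := by rw [hq.length_eq]; simp
  have e1 : ((1 : ℤˣ) : ℤ) * ((n : ℤ) + 1) = (n : ℤ) + 1 := by simp
  have e2 : ((-1 : ℤˣ) : ℤ) * ((n : ℤ) + 1) = -((n : ℤ) + 1) := by simp
  rw [e1, e2, ins_max _ l 0 x (by omega) (fun b h => (hb b h).2),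
    ins_min _ l 0 x (by omega) (fun b h => (hb b h).1), hlen]
  ring

lemma D_sum : ∀ (l : List ℤ) (a : ℤ), D (a :: l) = ∑ i ∈ Finset.range l.length,
    (if (a :: l).getD (i + 1) 0 < (a :: l).getD i 0 then 1 else 0)
  | [], a => by simp [D_single]
  | b :: l, a => by
    have := D_sum l b
    rw [D_cons, this]
    simp only [length_cons]
    rw [Finset.sum_range_succ', add_comm]
    simp only [List.getD_cons_succ, List.getD_cons_zero, zero_add]

lemma des_eq {n : ℕ} (σ : Equiv.Perm (Fin n)) (e : Fin n → ℤˣ) :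
    desB σ (e ∘ σ) = D (0 :: List.ofFn (gv e ∘ σ)) := by
  have hget : ∀ i, (0 :: List.ofFn (gv e ∘ σ)).getD i 0 = win σ (e ∘ σ) i := by
    intro i
    cases i with
    | zero => rfl
    | succ i =>
      rw [List.getD_cons_succ]
      by_cases h : i < n
      · rw [List.getD_eq_getElem _ _ (by simpa using h)]
        simp [win, h, gv]
      · rw [List.getD_eq_default _ _ (by simpa using h)]
        simp [win, h]
  rw [D_sum, desB, Finset.card_filter]
  simp only [hget, List.length_ofFn]

lemma des_le {n : ℕ} (σ : Equiv.Perm (Fin n)) (s : Fin n → ℤˣ) : desB σ s ≤ n := by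
  unfold desB
  simpa using Finset.card_filter_le (Finset.range n) (fun i => win σ s (i + 1) < win σ s i)

lemma Z_eq (n : ℕ) (x : ℕ → ℝ) :
    Z n x = ∑ p : Equiv.Perm (Fin n) × (Fin n → ℤˣ), x (desB p.1 p.2) := by
  unfold Z
  simp only [perm_sum _ (gv_inj _)]
  rw [Finset.sum_comm, Fintype.sum_prod_type]
  apply Finset.sum_congr rfl
  intro σ _
  rw [← (Equiv.arrowCongr σ.symm (Equiv.refl ℤˣ)).sum_comp (fun s => x (desB σ s))]
  apply Finset.sum_congr rfl
  intro e _
  rw [← des_eq]
  rfl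

lemma z_eq (x : ℕ → ℝ) (n : ℕ) : z x n = Z n x := by
  rw [Z_eq, z]
  rw [← Finset.sum_fiberwise_of_maps_to (s := Finset.univ) (t := Finset.range (n + 1))
    (g := fun p : Equiv.Perm (Fin n) × (Fin n → ℤˣ) => desB p.1 p.2)
    (fun p _ => Finset.mem_range.2 (Nat.lt_succ_of_le (des_le p.1 p.2)))]
  apply Finset.sum_congr rfl
  intro k _
  rw [Finset.sum_congr rfl (g := fun _ => x k) (fun p hp => by rw [(Finset.mem_filter.1 hp).2])]
  simp [B]

theorem result (x : ℕ → ℝ) (hx : ∀ k, 0 ≤ x k) (hc : ∀ k, x (k + 1) ^ 2 ≤ x k * x (k + 2)) :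
    (∀ n, 0 ≤ z x n) ∧ ∀ n, z x (n + 1) ^ 2 ≤ z x n * z x (n + 2) := by
  refine ⟨fun n => Finset.sum_nonneg (fun k _ => mul_nonneg (Nat.cast_nonneg _) (hx k)), fun n => ?_⟩
  rw [z_eq, z_eq, z_eq, Z_succ (n + 1), Z_succ n, Z_succ n, Z_eq, Z_eq, Z_eq]
  have key : ∀ p : Equiv.Perm (Fin n) × (Fin n → ℤˣ),
      (0 : ℝ) ≤ (n : ℝ) - (desB p.1 p.2 : ℕ) := by
    intro p
    have : ((desB p.1 p.2 : ℕ) : ℝ) ≤ n := by exact_mod_cast des_le p.1 p.2
    linarith
  apply Finset.sum_sq_le_sum_mul_sum_of_sq_le_mul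
  · intro p _; exact hx _
  · intro p _
    have h := key p
    generalize desB p.1 p.2 = d at h ⊢
    have := hx d
    have := hx (d + 1)
    have := hx (d + 1 + 1)
    push_cast
    have h2 : (0 : ℝ) ≤ 2 * ((n : ℝ) + 1) + 1 - 2 * d := by linarith
    have h3 : (0 : ℝ) ≤ 2 * ((n : ℝ) + 1) + 1 - 2 * (d + 1) := by linarith
    have h4 : (0 : ℝ) ≤ 2 * (n : ℝ) + 1 - 2 * d := by linarith
    positivity
  · intro p _
    have h := key p
    generalize desB p.1 p.2 = d at h ⊢
    have h0 := hx d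
    have h1 := hx (d + 1)
    have h2 := hc d
    have hd : (0 : ℝ) ≤ d := Nat.cast_nonneg d
    push_cast
    have e : x (d + 1 + 1) = x (d + 2) := rfl
    rw [e]
    obtain ⟨m, hm⟩ : ∃ m : ℝ, m = 2 * (n : ℝ) + 1 - 2 * d := ⟨_, rfl⟩
    have e1 : 2 * ((n : ℝ) + 1) + 1 - 2 * d = m + 2 := by linarith
    have e2 : 2 * ((n : ℝ) + 1) + 1 - 2 * (d + 1) = m := by linarith
    rw [e1, e2, ← hm]
    have hm0 : 0 ≤ m := by linarith
    have a1 : 0 ≤ m ^ 2 * (x d * x (d + 2) - x (d + 1) ^ 2) :=
      mul_nonneg (sq_nonneg _) (by linarith)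
    have a2 : 0 ≤ (2 * d + 1 + m) * (x d * x (d + 1)) := by positivity
    nlinarith [a1, a2]

end Pool.Agent.Results.MP_209e83_co.TypeB
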